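import Pool.Agent.Helper51.CX.St

set_option autoImplicit false

/-!
# Project CX (MP_a41ee4_co), module LA: the first step
-/

namespace Pool.Agent.Helper3.CX

open Pool.Agent.Helper51.CX

section

variable {K : Type} [Field K] [LinearOrder K] [IsStrictOrderedRing K]

/-- a sign as an integer in the list -/
theorem sgl (x y : K) (h : |x| = y) : ∃ a ∈ [(1 : ℤ), -1], x = (a : K) * y := by
  rcases abs_cases x with ⟨h1, -⟩ | ⟨h1, -⟩
  · exact ⟨1, by simp, by rw [← h, h1]; simp⟩
  · exact ⟨-1, by simp, by rw [← h, h1]; simp⟩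

/-- bounds for the far part at a feasible point -/
theorem far_le (d : Fin 6 → K) (hf : Feas d) : 0 ≤ d 5 ∧ |d 0| ≤ 50 * d 5 ∧ |d 1| ≤ 63 * d 5 := by
  have hx := hf.x
  have hy := hf.y
  have h2 := hf.z2
  have h3 := hf.z3
  have h4 := hf.z4
  have h0 := abs_nonneg (d 0)
  have h5 : 0 ≤ d 5 := by linarith
  refine ⟨h5, hx, ?_⟩
  rw [abs_le] at hy h2 h3 h4 ⊢
  constructor <;> linarith

/-- product bound -/
theorem mul_bd (a x b c : K) (hab : |a| ≤ b) (hx : |x| ≤ c) : |a * x| ≤ b * c := by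
  rw [abs_mul]
  exact mul_le_mul hab hx (abs_nonneg _) (le_trans (abs_nonneg _) hab)

/-- the three parts of a row at a feasible point -/
theorem parts_le (k : ℕ) (hk : k < 64) (d : Fin 6 → K) (hf : Feas d) :
    |(qx k : K) * d 0 + (qy k : K) * d 1| ≤ 192891 * d 5 ∧ |pp k d| ≤ 6469 * d 5 ∧
      |el k d| ≤ 3 * d 5 := by
  obtain ⟨h5, h0, h1⟩ := far_le d hf
  obtain ⟨a, b, c, e, f, g, h, -, -⟩ := bds (K := K) k hk
  have h2 := hf.z2
  have h3 := hf.z3
  have h4 := hf.z4
  refine ⟨?_, ?_, ?_⟩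
  · have e1 := mul_bd _ _ _ _ a h0
    have e2 := mul_bd _ _ _ _ b h1
    have e3 := abs_add_le ((qx k : K) * d 0) ((qy k : K) * d 1)
    linarith
  · have e1 := mul_bd _ _ _ _ c h0
    have e2 := mul_bd _ _ _ _ e h1
    have e3 := abs_add_le ((fx k : K) * d 0) ((fy k : K) * d 1)
    simp only [pp]
    linarith
  · have e1 := mul_bd _ _ _ _ f h2
    have e2 := mul_bd _ _ _ _ g h3
    have e3 := mul_bd _ _ _ _ h h4
    have e4 := abs_add_le ((v1 k : K) * d 2 + (v2 k : K) * d 3) ((v3 k : K) * d 4)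
    have e5 := abs_add_le ((v1 k : K) * d 2) ((v2 k : K) * d 3)
    simp only [el]
    linarith

/-- the small part of a row -/
theorem small_le (k : ℕ) (hk : k < 64) (d : Fin 6 → K) (hf : Feas d) :
    |(la k : K) * (10 ^ 20 * pp k d - el k d)| ≤ 3 * (10 ^ 20 * 6469 + 3) * d 5 := by
  obtain ⟨-, hp, he⟩ := parts_le k hk d hf
  obtain ⟨-, -, -, -, -, -, -, hl0, hl3⟩ := bds (K := K) k hk
  have h1 : |10 ^ 20 * pp k d - el k d| ≤ (10 ^ 20 * 6469 + 3) * d 5 := by
    have e1 := abs_sub (10 ^ 20 * pp k d) (el k d)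
    have e2 : |(10 : K) ^ 20 * pp k d| = 10 ^ 20 * |pp k d| := by
      rw [abs_mul, abs_of_pos (by positivity)]
    linarith
  have h2 := mul_bd _ _ _ _ (show |(la k : K)| ≤ 3 by rw [abs_of_nonneg hl0]; exact hl3) h1
  linarith

theorem L_eq (k : ℕ) (z : Fin 6 → K) : L k z =
    10 ^ 60 * z 5 + 10 ^ 40 * ((qx k : K) * z 0 + (qy k : K) * z 1) +
      (la k : K) * (10 ^ 20 * pp k z - el k z) := rfl

/-- every row is positive at a nonzero feasible point -/
theorem L_pos (k : ℕ) (hk : k < 64) (d : Fin 6 → K) (hf : Feas d) (h5 : 0 < d 5) : 0 < L k d := by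
  obtain ⟨hq, -, -⟩ := parts_le k hk d hf
  have hs := small_le k hk d hf
  rw [L_eq]
  rw [abs_le] at hq hs
  have e1 := hq.1
  have e2 := hs.1
  generalize (qx k : K) * d 0 + (qy k : K) * d 1 = A at *
  generalize (la k : K) * (10 ^ 20 * pp k d - el k d) = B at *
  linarith

end

theorem hLA : StRA → StGAP → StLA := by
  intro hRA hGAP K _ _ _ d hc hf hex
  obtain ⟨k0, hk0, hk0t⟩ := hex
  obtain ⟨h50, hx0, hx1⟩ := far_le d hf
  have h5 : 0 < d 5 := by
    rcases h50.lt_or_eq with h | h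
    · exact h
    · exfalso
      have z5 : d 5 = 0 := h.symm
      have z0 : d 0 = 0 := abs_nonpos_iff.1 (by rw [z5] at hx0; linarith)
      have z1 : d 1 = 0 := abs_nonpos_iff.1 (by rw [z5] at hx1; linarith)
      have z2 : d 2 = 0 := abs_nonpos_iff.1 (by have := hf.z2; rw [z5] at this; exact this)
      have z3 : d 3 = 0 := abs_nonpos_iff.1 (by have := hf.z3; rw [z5] at this; exact this)
      have z4 : d 4 = 0 := abs_nonpos_iff.1 (by have := hf.z4; rw [z5] at this; exact this)
      have : L k0 d = 0 := by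
        simp only [L, z0, z1, z2, z3, z4, z5]
        ring
      rw [this] at hk0t
      have h60 : (0 : K) < 10 ^ 60 := by positivity
      rw [← hk0t] at h60
      exact lt_irrefl _ h60
  obtain ⟨ra, rY, r2, r3, r4⟩ := hRA K d hc h5.ne' (fun k hk => (L_pos k hk d hf h5).ne')
  have habs : |d 5| = d 5 := abs_of_pos h5
  unfold MY at rY
  unfold MZ at r2 r3 r4
  rw [habs] at ra rY r2 r3 r4
  obtain ⟨a, ha, ea⟩ := sgl _ _ ra
  obtain ⟨b, hb, eb⟩ := sgl _ _ rY
  obtain ⟨c, hc', ec⟩ := sgl _ _ r2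
  obtain ⟨e, he, ee⟩ := sgl _ _ r3
  obtain ⟨f, hf', ef⟩ := sgl _ _ r4
  obtain ⟨j, hj, hj32, jx, jy, j1, j2, j3⟩ := hT0' a ha b hb c hc' e he f hf'
  have kx : (fx j : K) = 50 * a := by rw [jx]; push_cast; ring
  have ky : (fy j : K) = 50 * b + (c + 3 * e + 9 * f) := by rw [jy]; push_cast; ring
  have k1 : (v1 j : K) = c := by rw [j1]
  have k2 : (v2 j : K) = e := by rw [j2]
  have k3 : (v3 j : K) = f := by rw [j3]
  have E0 : d 0 = d 5 * (fx j : K) := by rw [ea, kx]; ring
  have E1 : d 1 = d 5 * (fy j : K) := by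
    have : d 1 = (b : K) * (50 * d 5) + (d 2 + 3 * d 3 + 9 * d 4) := by rw [← eb]; ring
    rw [this, ec, ee, ef, ky]; ring
  have E2 : d 2 = d 5 * (v1 j : K) := by rw [ec, k1]; ring
  have E3 : d 3 = d 5 * (v2 j : K) := by rw [ee, k2]; ring
  have E4 : d 4 = d 5 * (v3 j : K) := by rw [ef, k3]; ring
  -- values of the forms of the corner
  obtain ⟨sx, s1, s2, s3, -⟩ := sgn (K := K) j hj32 hj
  have q1 : (v1 j : K) * (v1 j : K) = 1 := by rcases s1 with h | h <;> rw [h] <;> ring
  have q2 : (v2 j : K) * (v2 j : K) = 1 := by rcases s2 with h | h <;> rw [h] <;> ring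
  have q3 : (v3 j : K) * (v3 j : K) = 1 := by rcases s3 with h | h <;> rw [h] <;> ring
  have qf : (fx j : K) * (fx j : K) = 2500 := by rcases sx with h | h <;> rw [h] <;> ring
  have Pp : pp j d = d 5 * (2500 + (fy j : K) * (fy j : K)) := by
    simp only [pp]; rw [E0, E1]
    have : (fx j : K) * (d 5 * (fx j : K)) = d 5 * ((fx j : K) * (fx j : K)) := by ring
    rw [this, qf]; ring
  have Pw : ww j d = 0 := by
    simp only [ww]; rw [E0, E1]; ring
  have Pl : el j d = 3 * d 5 := by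
    simp only [el]; rw [E2, E3, E4]
    have : (v1 j : K) * (d 5 * (v1 j : K)) + (v2 j : K) * (d 5 * (v2 j : K)) +
        (v3 j : K) * (d 5 * (v3 j : K)) = d 5 * ((v1 j : K) * (v1 j : K) + (v2 j : K) * (v2 j : K) +
        (v3 j : K) * (v3 j : K)) := by ring
    rw [this, q1, q2, q3]; ring
  have hppb : 2500 * d 5 ≤ pp j d := by
    rw [Pp]
    have : 0 ≤ d 5 * ((fy j : K) * (fy j : K)) := mul_nonneg h50 (mul_self_nonneg _)
    linarith
  obtain ⟨l1, l3⟩ := la_bds (K := K) j hj32 hj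
  have hjsmall : 0 < (la j : K) * (10 ^ 20 * pp j d - el j d) := by
    refine mul_pos (by linarith) ?_
    rw [Pl]
    linarith
  -- uniqueness
  have huniq : ∀ k < 64, L k d = 10 ^ 60 → k = j := by
    intro k hk hkt
    by_contra hkj
    have hjle : L j d ≤ 10 ^ 60 := hf.v j hj
    have hlt : L k d < L j d := by
      by_cases hga : k = ga j
      · have h1 := (hGAP K j hj32 hj d).1
        rw [← hga, Pw] at h1
        have : (la j : K) * (10 ^ 40 * 0 + 10 ^ 20 * pp j d - el j d) =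
            (la j : K) * (10 ^ 20 * pp j d - el j d) := by ring
        rw [this] at h1
        linarith
      by_cases hgb : k = gb j
      · have h1 := (hGAP K j hj32 hj d).2
        rw [← hgb, Pw] at h1
        have : (la j : K) * (-(10 ^ 40 * 0) + 10 ^ 20 * pp j d - el j d) =
            (la j : K) * (10 ^ 20 * pp j d - el j d) := by ring
        rw [this] at h1
        linarith
      have h1 := L_sub (K := K) j k (by omega) d
      have h2 := hT3 j hj hj32 k (by omega) hkj hga hgb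
      have h3 : (100 : K) ≤ (vx j k : K) * (fx j : K) + (vy j k : K) * (fy j : K) := by
        exact_mod_cast h2
      have h4 : (vx j k : K) * d 0 + (vy j k : K) * d 1 =
          d 5 * ((vx j k : K) * (fx j : K) + (vy j k : K) * (fy j : K)) := by
        rw [E0, E1]; ring
      have h5' : d 5 * 100 ≤ d 5 * ((vx j k : K) * (fx j : K) + (vy j k : K) * (fy j : K)) :=
        mul_le_mul_of_nonneg_left h3 h50
      have h6 := (abs_le.1 (small_le k hk d hf)).2
      rw [h4] at h1
      generalize d 5 * ((vx j k : K) * (fx j : K) + (vy j k : K) * (fy j : K)) = A at *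
      generalize (la k : K) * (10 ^ 20 * pp k d - el k d) = B at *
      generalize (la j : K) * (10 ^ 20 * pp j d - el j d) = C at *
      linarith
    rw [hkt] at hlt
    exact absurd hjle (not_le.2 hlt)
  have hkj : k0 = j := huniq k0 hk0 hk0t
  refine ⟨j, ⟨hj32, hj, hf, ?_, E0, E1, E2, E3, E4⟩, huniq⟩
  rw [← hkj]
  exact hk0t

end Pool.Agent.Helper3.CX
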